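import Pool.Agent.H95.Dom

set_option autoImplicit false

open Filter Topology Pool.Agent.H95.Dom

theorem Pool.Agent.Results.MP_828339_co.NoFinite.result :
    ∀ (N : ℕ) (F : Fin N → ℕ → Graphon), ∃ (V U : Type) (_ : Fintype V) (_ : Fintype U)
      (G : SimpleGraph V) (H : SimpleGraph U) (ρ : ℝ), RhoIs G H ρ ∧
        ∀ i, ¬ Tendsto (fun n => ratio G H (F i n)) atTop (𝓝 ρ) :=
  main
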